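import Pool.Agent.H61.IG.Reduce
import Pool.Agent.H61.IG.AltLib

/-!
# MP_c6fb0d_al: reduction of the question to almost simple groups

A non-abelian chief factor of a finite group invariably generated by elements of prime orders `p` and
`q` is simple (`Pool.Agent.H61.IG.simple_of_minimal_normal`). Outline: let `N` be a non-abelian
minimal normal subgroup, `T` one of its simple factors, and suppose that `T` has more than one
conjugate. The group permutes the conjugates of `T` transitively, so one of the two generators, say
`b`, fixes none of them. Let `r = p` if `p` divides `|T|` and let `r` be any prime divisor of `|T|`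
otherwise. `G` acts transitively on the families `(R_ω)` of Sylow `r`-subgroups of the conjugates `ω`
of `T`. Both `a` and `b` fix such a family (`a` because the number of Sylow `r`-subgroups is prime to
`p`, `b` because all its cycles on the conjugates of `T` have length exactly `q`), so some conjugates
of them fix the same family and do not generate `G`.
-/

namespace Pool.Agent.Results.MP_c6fb0d_al.AlmostSimpleReduction

/-- `a` and `b` invariably generate `G`: any conjugates of them generate `G`. -/
def InvariablyGenerate {G : Type} [Group G] (a b : G) : Prop :=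
  ∀ g h : G, Subgroup.closure {g⁻¹ * a * g, h⁻¹ * b * h} = ⊤

/-- `G` is almost simple with socle `T`: `T` is a normal subgroup of `G` which is a non-abelian simple
group, and no nontrivial element of `G` centralises `T`. -/
structure IsSimpleSocle {G : Type} [Group G] (T : Subgroup G) : Prop where
  normal : T.Normal
  simple : IsSimpleGroup T
  nonabelian : ∃ x ∈ T, ∃ y ∈ T, x * y ≠ y * x
  centralizer : Subgroup.centralizer (T : Set G) = ⊥

open Equiv

/-- every finite group embeds in large alternating groups -/
theorem embeds_alt (H : Type) [Group H] [Finite H] (k : ℕ) :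
    ∃ n : ℕ, k ≤ n ∧ ∃ φ : H →* alternatingGroup (Fin n), Function.Injective φ := by
  classical
  have := Fintype.ofFinite H
  let X := H ⊕ Fin k
  let Y := X ⊕ X
  let f : H →* Perm X := (Perm.sumCongrHom H (Fin k)).comp
    ((MulAction.toPermHom H H).prod 1)
  have hf : Function.Injective f := by
    rw [injective_iff_map_eq_one]
    intro x hx
    have h1 := congrArg (fun σ : Perm X => σ (Sum.inl 1)) hx
    have h2 : (Sum.inl (x * 1) : X) = Sum.inl 1 := h1
    simpa using Sum.inl_injective h2
  let g : H →* Perm Y := (Perm.sumCongrHom X X).comp (f.prod f)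
  have hg : Function.Injective g := by
    intro x y hxy
    have h1 := Perm.sumCongrHom_injective hxy
    exact hf (Prod.ext_iff.1 h1).1
  have hsign : ∀ x, g x ∈ alternatingGroup Y := by
    intro x
    rw [Perm.mem_alternatingGroup]
    change Perm.sign (Perm.sumCongr (f x) (f x)) = 1
    rw [Perm.sign_sumCongr]
    exact Int.units_mul_self _
  let g' : H →* alternatingGroup Y := g.codRestrict _ hsign
  have hg' : Function.Injective g' := by
    intro x y hxy
    exact hg (congrArg Subtype.val hxy)
  let e : Y ≃ Fin (Fintype.card Y) := Fintype.equivFin Y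
  refine ⟨Fintype.card Y, ?_, (e.altCongrHom.toMonoidHom).comp g',
    e.altCongrHom.injective.comp hg'⟩
  simp [Y, X]
  omega

/-- the socle is not alternating -/
theorem not_alternating {G : Type} [Group G] [Finite G] {p q n : ℕ} (hp : p.Prime) (hq : q.Prime)
    (hpq : p ≠ q) (hn : p * q < n) (T : Subgroup G) (hT : T.Normal) {a b : G}
    (ha : orderOf a = p) (hb : orderOf b = q) (hinv : Pool.Agent.H61.IG.InvGen a b)
    (ψ : alternatingGroup (Fin n) →* T) (hψ : Function.Injective ψ) (m : ℕ)
    (e : T ≃* alternatingGroup (Fin m)) : False := by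
  have h6 : 6 ≤ p * q := by
    have := hp.two_le
    have := hq.two_le
    rcases Nat.lt_or_gt_of_ne hpq with h | h <;> nlinarith
  have hcard := Nat.card_le_card_of_injective _ (e.injective.comp hψ)
  have hm : n ≤ m := by
    by_contra hcon
    push Not at hcon
    have h1 : Nontrivial (Fin n) := Fin.nontrivial_iff_two_le.mpr (by omega)
    have h2 := two_mul_nat_card_alternatingGroup (α := Fin n)
    rw [Nat.card_perm, Nat.card_fin] at h2
    have h4 : n.factorial = n * (n - 1).factorial := by
      rw [Nat.mul_factorial_pred (by omega)]
    have h6 : 0 < (n - 1).factorial := Nat.factorial_pos _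
    have h5 : Nat.card (alternatingGroup (Fin m)) ≤ (n - 1).factorial := by
      have h7 := Nat.card_le_card_of_injective (alternatingGroup (Fin m)).subtype
        (Subgroup.subtype_injective _)
      rw [Nat.card_perm, Nat.card_fin] at h7
      exact h7.trans (Nat.factorial_le (by omega))
    nlinarith
  have hm7 : 7 ≤ m := by omega
  let θ : T →* (Fin 1 → alternatingGroup (Fin m)) :=
    { toFun := fun x _ => e x
      map_one' := by funext i; simp
      map_mul' := fun x y => by funext i; simp }
  have hθ : Function.Surjective θ := by
    intro f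
    obtain ⟨x, hx⟩ := e.surjective (f 0)
    refine ⟨x, funext fun i => ?_⟩
    rw [Subsingleton.elim i 0]
    exact hx
  have hker : ∀ x : T, θ x = 1 ↔ (x : G) ∈ (⊥ : Subgroup G) := by
    intro x
    rw [Subgroup.mem_bot]
    constructor
    · intro h
      have h1 : e x = 1 := congrFun h 0
      have h2 : x = 1 := by
        have := e.injective (h1.trans (map_one e).symm)
        exact this
      rw [h2]; rfl
    · intro h
      have h2 : x = 1 := Subtype.ext h
      rw [h2, map_one]
  have hA : Pool.Agent.H61.IG.Alt.AltReal (⊥ : Subgroup G) T 1 m :=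
    Pool.Agent.H61.IG.Alt.realise hm7 ⊥ T θ hθ hker
  refine Pool.Agent.H61.IG.Alt.no_large (e := p * q) (by omega) (by omega) one_pos hA ![a, b]
    ?_ ?_
  · intro i
    fin_cases i
    · exact ⟨p, 1, hp, by simp, by show a ^ p ^ 1 = 1; rw [pow_one, ← ha, pow_orderOf_eq_one]⟩
    · exact ⟨q, 1, hq, by simp, by show b ^ q ^ 1 = 1; rw [pow_one, ← hb, pow_orderOf_eq_one]⟩
  · intro g
    rw [← hinv (g 0) (g 1)]
    congr 1
    ext x
    simp only [Set.mem_range, Fin.exists_fin_two, Set.mem_insert_iff, Set.mem_singleton_iff]
    constructor
    · rintro (h | h)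
      · exact Or.inl h.symm
      · exact Or.inr h.symm
    · rintro (h | h)
      · exact Or.inl h.symm
      · exact Or.inr h.symm

/-- **Reduction to almost simple groups.** Let `p ≠ q` be primes. Every finite group embeds in a finite
group invariably generated by an element of order `p` and an element of order `q` if and only if, for
every `D`, every finite group embeds in the simple socle `T` of an almost simple finite group
invariably generated by such elements, where `T` is not isomorphic to an alternating group and has no
faithful linear representation of degree `D` over any field. -/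
theorem result (p q : ℕ) (hp : p.Prime) (hq : q.Prime) (hpq : p ≠ q) :
    (∀ (H : Type) [Group H] [Finite H], ∃ (G : Type) (_ : Group G) (_ : Finite G) (φ : H →* G)
      (a b : G), Function.Injective φ ∧ orderOf a = p ∧ orderOf b = q ∧ InvariablyGenerate a b) ↔
    ∀ (H : Type) [Group H] [Finite H] (D : ℕ), ∃ (G : Type) (_ : Group G) (_ : Finite G)
      (T : Subgroup G) (φ : H →* T) (a b : G), IsSimpleSocle T ∧
        (∀ m : ℕ, IsEmpty (T ≃* alternatingGroup (Fin m))) ∧
        (∀ (F : Type) [Field F] (f : T →* GL (Fin D) F), ¬ Function.Injective f) ∧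
        Function.Injective φ ∧ orderOf a = p ∧ orderOf b = q ∧ InvariablyGenerate a b := by
  constructor
  · intro hQ H _ _ D
    obtain ⟨n, hn, φ0, hφ0⟩ := embeds_alt H (p * q + 5 * (D + 1) + 5)
    have hs : IsSimpleGroup (alternatingGroup (Fin n)) :=
      alternatingGroup.isSimpleGroup (by rw [Nat.card_fin]; omega)
    obtain ⟨G, _, _, φ, a, b, hφ, ha, hb, hinv⟩ := hQ (alternatingGroup (Fin n))
    obtain ⟨L, hL, T, hTn, hTs, hTa, hTc, ⟨ψ, hψ⟩, ha', hb', hinv'⟩ :=
      Pool.Agent.H61.IG.reduction hp hq ha hb hinv (by
        by_contra hcon
        push Not at hcon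
        exact Pool.Agent.H61.IG.Alt.alt_noncomm (n := n) (by omega) hcon) φ hφ
    refine ⟨G ⧸ L, inferInstance, inferInstance, T, ψ.comp φ0, a, b, ⟨hTn, hTs, hTa, hTc⟩, ?_, ?_,
      hψ.comp hφ0, ha', hb', hinv'⟩
    · intro m
      refine ⟨fun e => ?_⟩
      exact not_alternating hp hq hpq (by omega) T hTn ha' hb' hinv' ψ hψ m e
    · intro F _ f hf
      exact Pool.Agent.H61.IG.Alt.no_embed (n := n) (D := D) (by omega) (f.comp ψ) (hf.comp hψ)
  · intro hQ H _ _
    obtain ⟨G, _, _, T, φ, a, b, -, -, -, hφ, ha, hb, hinv⟩ := hQ H 0
    exact ⟨G, inferInstance, inferInstance, T.subtype.comp φ, a, b,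
      (Subgroup.subtype_injective T).comp hφ, ha, hb, hinv⟩

end Pool.Agent.Results.MP_c6fb0d_al.AlmostSimpleReduction
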