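import Pool.Agent.H61.IG.Reduce

/-!
# MP_c6fb0d_al: non-abelian chief factors are simple

The proof is in `Pool.Agent.H61.IG.simple_of_minimal_normal`; see also the hand-in
`AlmostSimpleReduction`, which uses it.
-/

namespace Pool.Agent.Results.MP_c6fb0d_al.SimpleChiefFactors

/-- `a` and `b` invariably generate `G`: any conjugates of them generate `G`. -/
def InvariablyGenerate {G : Type*} [Group G] (a b : G) : Prop :=
  ∀ g h : G, Subgroup.closure {g⁻¹ * a * g, h⁻¹ * b * h} = ⊤

/-- Let the finite group `G` be invariably generated by an element `a` of prime order `p` and an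
element `b` of prime order `q`. Let `L < K` be normal subgroups of `G` with no normal subgroup of `G`
strictly between them, and suppose that `K / L` is not abelian. Then `K / L` is simple: every subgroup
between `L` and `K` which is normalised by `K` is `L` or `K`. -/
theorem result (p q : ℕ) (hp : p.Prime) (hq : q.Prime) (G : Type*) [Group G] [Finite G] (a b : G)
    (ha : orderOf a = p) (hb : orderOf b = q) (hinv : InvariablyGenerate a b) (L K : Subgroup G)
    (hL : L.Normal) (hK : K.Normal) (hLK : L ≤ K)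
    (hchief : ∀ M : Subgroup G, M.Normal → L ≤ M → M ≤ K → M = L ∨ M = K)
    (hna : ∃ x ∈ K, ∃ y ∈ K, x * y * x⁻¹ * y⁻¹ ∉ L) (M : Subgroup G) (hLM : L ≤ M) (hMK : M ≤ K)
    (hM : ∀ k ∈ K, ∀ m ∈ M, k * m * k⁻¹ ∈ M) : M = L ∨ M = K := by
  let π : G →* G ⧸ L := QuotientGroup.mk' L
  have hπ : Function.Surjective π := QuotientGroup.mk'_surjective L
  have hker : ∀ x, π x = 1 ↔ x ∈ L := fun x => QuotientGroup.eq_one_iff x
  have hcm : ∀ X : Subgroup G, L ≤ X → (X.map π).comap π = X := by
    intro X hX
    apply le_antisymm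
    · rintro x ⟨y, hy, hyx⟩
      have h1 : y⁻¹ * x ∈ L := by rw [← hker, map_mul, map_inv, ← hyx]; simp
      have := X.mul_mem hy (hX h1)
      simpa using this
    · intro x hx
      exact ⟨x, hx, rfl⟩
  have hinv' : Pool.Agent.H61.IG.InvGen (π a) (π b) :=
    Pool.Agent.H61.IG.InvGen.map (a := a) (b := b) hinv π hπ
  have hs : IsSimpleGroup (K.map π) := by
    refine Pool.Agent.H61.IG.simple_of_minimal_normal hp hq (a := π a) (b := π b) ?_ ?_ hinv'
      (hK.map π hπ) ?_ ?_
    · rw [← map_pow, ← ha, pow_orderOf_eq_one, map_one]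
    · rw [← map_pow, ← hb, pow_orderOf_eq_one, map_one]
    · intro Q hQ hQK hQb
      have h1 : L ≤ Q.comap π := by
        intro x hx
        rw [Subgroup.mem_comap, (hker x).2 hx]
        exact Q.one_mem
      have h2 : Q.comap π ≤ K := by
        have := Subgroup.comap_mono (f := π) hQK
        rwa [hcm K hLK] at this
      rcases hchief _ (hQ.comap π) h1 h2 with h3 | h3
      · exfalso
        apply hQb
        rw [← Subgroup.map_comap_eq_self_of_surjective hπ Q, h3, eq_bot_iff]
        rintro _ ⟨x, hx, rfl⟩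
        exact Subgroup.mem_bot.2 ((hker x).2 hx)
      · rw [← Subgroup.map_comap_eq_self_of_surjective hπ Q, h3]
    · obtain ⟨x, hx, y, hy, hxy⟩ := hna
      refine ⟨π x, ⟨x, hx, rfl⟩, π y, ⟨y, hy, rfl⟩, fun h => hxy ?_⟩
      rw [← hker, map_mul, map_mul, map_mul, map_inv, map_inv, h]
      group
  have hMn : ((M.map π).subgroupOf (K.map π)).Normal := by
    refine ⟨?_⟩
    rintro ⟨_, hm'⟩ ⟨m, hm, rfl⟩ ⟨_, ⟨k, hk, rfl⟩⟩
    rw [Subgroup.mem_subgroupOf]
    exact ⟨k * m * k⁻¹, hM k hk m hm, by simp⟩
  have hle : M.map π ≤ K.map π := Subgroup.map_mono hMK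
  rcases hMn.eq_bot_or_eq_top with h | h
  · left
    rw [Subgroup.subgroupOf_eq_bot, disjoint_iff, inf_eq_left.2 hle] at h
    apply le_antisymm _ hLM
    intro x hx
    rw [← hker]
    have : π x ∈ M.map π := ⟨x, hx, rfl⟩
    rwa [h, Subgroup.mem_bot] at this
  · right
    rw [Subgroup.subgroupOf_eq_top] at h
    have := Subgroup.comap_mono (f := π) (le_antisymm hle h).ge
    rw [hcm K hLK, hcm M hLM] at this
    exact le_antisymm hMK this

end Pool.Agent.Results.MP_c6fb0d_al.SimpleChiefFactors
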